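import Pool.Agent.H38.Hau.Red

/-!
Bounded exists-forall-exists polynomial equations reduce to the distance problem.
-/

namespace Pool.Agent.Results.MP_004e29_lc.Hard

open Pool.Agent.H38.NP Pool.Agent.H38.ER Pool.Agent.H38.Hau

theorem result : QHardOn BC (fun _ => True) GH := gh_hard

end Pool.Agent.Results.MP_004e29_lc.Hard
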